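import Pool.Agent.W221.NS.Stm2
import Pool.Agent.W940.MD.EULER

/-!
Project ME (helper221): part ME-EULER2 (helper654), adapted from `Pool.Agent.W940.MD.EULER`
(helper940).
-/

open MeasureTheory Set
open scoped ContDiff NNReal

set_option autoImplicit false

namespace Pool.Agent.W654.ME

open H459R3.NS W221.NS Pool.Agent.W940.MD

theorem det_est2 {L : ℝ} (hL : 0 ≤ L) (a : Fin 3 → Fin 3 → ℝ) (ha : ∀ i j, |a i j| ≤ L)
    (h : ℝ) (hh : |h| ≤ 1) :
    |(Matrix.of fun i j => (if i = j then (1 : ℝ) else 0) + h * a i j).det - 1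
      - h * ∑ i, a i i| ≤ (6 * L ^ 2 + 6 * L ^ 3) * h ^ 2 := by
  have hdet : (Matrix.of fun i j => (if i = j then (1 : ℝ) else 0) + h * a i j).det - 1
      - h * (∑ i, a i i) =
      h ^ 2 * ((a 0 0 * a 1 1 - a 0 1 * a 1 0) + (a 0 0 * a 2 2 - a 0 2 * a 2 0) +
        (a 1 1 * a 2 2 - a 1 2 * a 2 1) +
        h * (a 0 0 * a 1 1 * a 2 2 - a 0 0 * a 1 2 * a 2 1 - a 0 1 * a 1 0 * a 2 2 +
          a 0 1 * a 1 2 * a 2 0 + a 0 2 * a 1 0 * a 2 1 - a 0 2 * a 1 1 * a 2 0)) := by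
    rw [Matrix.det_fin_three, Fin.sum_univ_three]
    simp
    ring
  rw [hdet, abs_mul, abs_of_nonneg (sq_nonneg h), mul_comm]
  refine mul_le_mul_of_nonneg_right ?_ (sq_nonneg h)
  have h2 : ∀ i j k l, |a i j * a k l| ≤ L ^ 2 := fun i j k l => by
    rw [abs_mul, sq]
    exact mul_le_mul (ha _ _) (ha _ _) (abs_nonneg _) hL
  have h3 : ∀ i j k l m n, |a i j * a k l * a m n| ≤ L ^ 3 := fun i j k l m n => by
    rw [abs_mul, pow_succ]
    exact mul_le_mul (h2 _ _ _ _) (ha _ _) (abs_nonneg _) (by positivity)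
  have e1 := abs_le.1 (h2 0 0 1 1)
  have e2 := abs_le.1 (h2 0 1 1 0)
  have e3 := abs_le.1 (h2 0 0 2 2)
  have e4 := abs_le.1 (h2 0 2 2 0)
  have e5 := abs_le.1 (h2 1 1 2 2)
  have e6 := abs_le.1 (h2 1 2 2 1)
  have f1 := abs_le.1 (h3 0 0 1 1 2 2)
  have f2 := abs_le.1 (h3 0 0 1 2 2 1)
  have f3 := abs_le.1 (h3 0 1 1 0 2 2)
  have f4 := abs_le.1 (h3 0 1 1 2 2 0)
  have f5 := abs_le.1 (h3 0 2 1 0 2 1)
  have f6 := abs_le.1 (h3 0 2 1 1 2 0)
  have hd : |a 0 0 * a 1 1 * a 2 2 - a 0 0 * a 1 2 * a 2 1 - a 0 1 * a 1 0 * a 2 2 +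
          a 0 1 * a 1 2 * a 2 0 + a 0 2 * a 1 0 * a 2 1 - a 0 2 * a 1 1 * a 2 0| ≤ 6 * L ^ 3 := by
    rw [abs_le]; constructor <;> linarith [f1.1, f1.2, f2.1, f2.2, f3.1, f3.2, f4.1, f4.2, f5.1,
      f5.2, f6.1, f6.2]
  have hhd : |h * (a 0 0 * a 1 1 * a 2 2 - a 0 0 * a 1 2 * a 2 1 - a 0 1 * a 1 0 * a 2 2 +
          a 0 1 * a 1 2 * a 2 0 + a 0 2 * a 1 0 * a 2 1 - a 0 2 * a 1 1 * a 2 0)| ≤ 6 * L ^ 3 := by
    rw [abs_mul]
    calc _ ≤ 1 * (6 * L ^ 3) := mul_le_mul hh hd (abs_nonneg _) (by norm_num)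
      _ = _ := one_mul _
  have hhd' := abs_le.1 hhd
  rw [abs_le]
  constructor <;> linarith [e1.1, e1.2, e2.1, e2.2, e3.1, e3.2, e4.1, e4.2, e5.1, e5.2, e6.1,
    e6.2, hhd'.1, hhd'.2]

theorem inv_exp {x : ℝ} (h0 : 0 ≤ x) (h1 : x ≤ 1 / 2) : 1 ≤ (1 - x) * Real.exp (x + x ^ 2) := by
  have h := Real.quadratic_le_exp_of_nonneg (x := x + x ^ 2) (by positivity)
  have h2 : 1 ≤ (1 - x) * (1 + (x + x ^ 2) + (x + x ^ 2) ^ 2 / 2) := by
    have e : (1 - x) * (1 + (x + x ^ 2) + (x + x ^ 2) ^ 2 / 2) - 1 =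
        x ^ 2 / 2 * (1 - x - x ^ 2 - x ^ 3) := by ring
    have h3 : 0 ≤ 1 - x - x ^ 2 - x ^ 3 := by
      have a1 : x ^ 2 ≤ 1 / 4 := by nlinarith
      have a2 : x ^ 3 ≤ 1 / 8 := by nlinarith
      linarith
    have h4 : 0 ≤ x ^ 2 / 2 * (1 - x - x ^ 2 - x ^ 3) := mul_nonneg (by positivity) h3
    linarith
  exact h2.trans (mul_le_mul_of_nonneg_left h (by linarith))

theorem t_EULER2 : S_EULER2 := by
  intro L hL
  set C' : ℝ := 6 * L ^ 2 + 6 * L ^ 3 with hC'
  have hC0 : 0 ≤ C' := by positivity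
  have hden : 0 < 1 + 6 * L + 2 * C' := by positivity
  refine ⟨C' + (3 * L + C') ^ 2 + 1, 1 / (1 + 6 * L + 2 * C'), by positivity, by positivity, ?_⟩
  intro κ U hU hb hdiv h hh f hf hfc hf0
  have hκ0 : 0 ≤ κ := (abs_nonneg _).trans (hdiv 0)
  set κ' : ℝ := min κ (3 * L) with hκ'
  have hκ'0 : 0 ≤ κ' := le_min hκ0 (by positivity)
  have hκ'1 : κ' ≤ κ := min_le_left _ _
  have hκ'2 : κ' ≤ 3 * L := min_le_right _ _
  have hdv : ∀ x, |dv U x| ≤ κ' := by
    intro x
    refine le_min (hdiv x) ?_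
    unfold dv
    calc |∑ i, pd i (fun y => U y i) x| ≤ ∑ i, |pd i (fun y => U y i) x| :=
          Finset.abs_sum_le_sum_abs _ _
      _ ≤ ∑ _i : Fin 3, L := Finset.sum_le_sum fun i _ => hb x i i
      _ = 3 * L := by rw [Finset.sum_const, Finset.card_univ, Fintype.card_fin]; simp
  have hh0 : |h| * (1 + 6 * L + 2 * C') ≤ 1 := by
    have := (le_div_iff₀ hden).1 hh
    exact this
  have hn := abs_nonneg h
  have hh1 : |h| ≤ 1 := by nlinarith [mul_nonneg hn hL, mul_nonneg hn hC0]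
  have hh2 : |h| * (3 * L) ≤ 1 / 2 := by nlinarith [mul_nonneg hn hL, mul_nonneg hn hC0]
  have hsq : h ^ 2 ≤ |h| := by rw [← sq_abs]; nlinarith
  set x₀ : ℝ := |h| * κ' + C' * h ^ 2 with hx₀
  have hx0 : 0 ≤ x₀ := by positivity
  have hx1 : x₀ ≤ |h| * (3 * L + C') := by
    have a1 : |h| * κ' ≤ |h| * (3 * L) := mul_le_mul_of_nonneg_left hκ'2 hn
    have a2 : C' * h ^ 2 ≤ C' * |h| := mul_le_mul_of_nonneg_left hsq hC0
    rw [hx₀]; linarith
  have hx2 : x₀ ≤ 1 / 2 := by nlinarith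
  have hx3 : x₀ ^ 2 ≤ (3 * L + C') ^ 2 * h ^ 2 := by
    calc x₀ ^ 2 ≤ (|h| * (3 * L + C')) ^ 2 := pow_le_pow_left₀ hx0 hx1 2
      _ = _ := by rw [mul_pow, sq_abs]; ring
  have hUd : Differentiable ℝ U := hU.differentiable (by norm_num)
  -- Lipschitz perturbation
  have hgd : Differentiable ℝ (fun x => h • U x) := hUd.const_smul h
  have hglip : LipschitzWith (1 / 2) (fun x => h • U x) := by
    refine lipschitzWith_of_nnnorm_fderiv_le hgd fun x => ?_
    have e : fderiv ℝ (fun x => h • U x) x = h • fderiv ℝ U x := fderiv_const_smul (hUd x) h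
    rw [e, ← NNReal.coe_le_coe, coe_nnnorm, norm_smul, Real.norm_eq_abs]
    have := norm_le hL hU hb x
    calc |h| * ‖fderiv ℝ U x‖ ≤ |h| * (3 * L) := mul_le_mul_of_nonneg_left this hn
      _ ≤ 1 / 2 := hh2
      _ = _ := by simp
  set Y : V → V := fun x => x + h • U x with hY
  have hanti : AntilipschitzWith ((1 : ℝ≥0)⁻¹ - 1 / 2)⁻¹ Y := by
    have h1 : AntilipschitzWith 1 (fun x : V => x) := AntilipschitzWith.id
    exact h1.add_lipschitzWith hglip (by
      rw [inv_one, ← NNReal.coe_lt_coe]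
      push_cast
      norm_num)
  have hYlip : LipschitzWith (1 + 1 / 2) Y := LipschitzWith.id.add hglip
  have hemb : Topology.IsClosedEmbedding Y := hanti.isClosedEmbedding hYlip.uniformContinuous
  have hinj : Function.Injective Y := hemb.injective
  have hsurj : Function.Surjective Y := by
    intro y
    have hc : ContractingWith (1 / 2) (fun z => y - h • U z) := by
      refine ⟨?_, ?_⟩
      · rw [← NNReal.coe_lt_coe]; push_cast; norm_num
      · refine LipschitzWith.of_dist_le_mul fun a b => ?_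
        have := hglip.dist_le_mul a b
        rwa [dist_sub_left]
    refine ⟨hc.fixedPoint, ?_⟩
    have hfix : y - h • U hc.fixedPoint = hc.fixedPoint := hc.fixedPoint_isFixedPt
    show hc.fixedPoint + h • U hc.fixedPoint = y
    conv_lhs => lhs; rw [← hfix]
    abel
  have hYd : ∀ x, HasFDerivAt Y (ContinuousLinearMap.id ℝ V + h • fderiv ℝ U x) x := fun x =>
    (hasFDerivAt_id x).add ((hUd x).hasFDerivAt.const_smul h)
  have hdet : ∀ x, 1 - x₀ ≤ (ContinuousLinearMap.id ℝ V + h • fderiv ℝ U x).det := by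
    intro x
    have hmat : (ContinuousLinearMap.id ℝ V + h • fderiv ℝ U x).det =
        (Matrix.of fun i j => (if i = j then (1 : ℝ) else 0) +
          h * pd j (fun y => U y i) x).det := by
      rw [ContinuousLinearMap.det, ← LinearMap.det_toMatrix']
      congr 1
      ext i j
      rw [LinearMap.toMatrix'_apply, Matrix.of_apply, pd_eq hU]
      have e : (fun j' : Fin 3 => if j' = j then (1 : ℝ) else 0) = Pi.single j 1 := by
        funext k; simp [Pi.single_apply]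
      simp [Pi.single_apply]
    rw [hmat]
    have h1 := abs_le.1 (det_est2 hL _ (fun i j => hb x i j) h hh1)
    have h2 : |h * ∑ i, pd i (fun y => U y i) x| ≤ |h| * κ' := by
      rw [abs_mul]
      exact mul_le_mul_of_nonneg_left (hdv x) hn
    have h3 := abs_le.1 h2
    rw [hx₀]
    linarith [h1.1, h3.1]
  have hcov : ∫ x, f x = ∫ x, |(ContinuousLinearMap.id ℝ V + h • fderiv ℝ U x).det| * f (Y x) := by
    have := integral_image_eq_integral_abs_det_fderiv_smul (volume : Measure V)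
      (s := univ) (f := Y) (f' := fun x => ContinuousLinearMap.id ℝ V + h • fderiv ℝ U x)
      MeasurableSet.univ (fun x _ => (hYd x).hasFDerivWithinAt) hinj.injOn f
    rw [image_univ, hsurj.range_eq, setIntegral_univ, setIntegral_univ] at this
    simpa [smul_eq_mul] using this
  have hYc : Continuous Y := hemb.continuous
  have hfY : Continuous fun x => f (Y x) := hf.comp hYc
  have hfYc : HasCompactSupport fun x => f (Y x) := hfc.comp_isClosedEmbedding hemb
  have hint : Integrable fun x => f (Y x) := hfY.integrable_of_hasCompactSupport hfYc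
  have hdc : Continuous fun x => |(ContinuousLinearMap.id ℝ V + h • fderiv ℝ U x).det| := by
    have : Continuous fun x => ContinuousLinearMap.id ℝ V + h • fderiv ℝ U x :=
      continuous_const.add ((hU.continuous_fderiv (by norm_num)).const_smul h)
    exact (ContinuousLinearMap.continuous_det.comp this).abs
  have hint2 : Integrable fun x =>
      |(ContinuousLinearMap.id ℝ V + h • fderiv ℝ U x).det| * f (Y x) :=
    (hdc.mul hfY).integrable_of_hasCompactSupport hfYc.mul_left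
  set I : ℝ := ∫ x, f (Y x) with hI
  have hI0 : 0 ≤ I := integral_nonneg fun x => hf0 _
  have hlow : (1 - x₀) * I ≤ ∫ x, f x := by
    rw [hcov, hI, ← integral_const_mul]
    refine integral_mono (hint.const_mul _) hint2 fun x => ?_
    refine mul_le_mul_of_nonneg_right ?_ (hf0 _)
    exact le_trans (hdet x) (le_abs_self _)
  have hf1 : 0 ≤ ∫ x, f x := integral_nonneg hf0
  calc I ≤ (1 - x₀) * Real.exp (x₀ + x₀ ^ 2) * I := by
        have := mul_le_mul_of_nonneg_right (inv_exp hx0 hx2) hI0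
        linarith
    _ = Real.exp (x₀ + x₀ ^ 2) * ((1 - x₀) * I) := by ring
    _ ≤ Real.exp (x₀ + x₀ ^ 2) * ∫ x, f x :=
        mul_le_mul_of_nonneg_left hlow (Real.exp_pos _).le
    _ ≤ Real.exp (|h| * κ + (C' + (3 * L + C') ^ 2 + 1) * h ^ 2) * ∫ x, f x := by
        refine mul_le_mul_of_nonneg_right (Real.exp_le_exp.2 ?_) hf1
        have a1 : |h| * κ' ≤ |h| * κ := mul_le_mul_of_nonneg_left hκ'1 hn
        have a2 : 0 ≤ h ^ 2 := sq_nonneg h
        rw [hx₀] at hx3 ⊢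
        nlinarith

end Pool.Agent.W654.ME
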